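import Pool.Agent.T9h36.N1.Spec

/-!
# Project NK, slope 1: (N4)
-/

set_option autoImplicit false

open Set
open scoped RealInnerProductSpace

namespace Pool.Agent.T9h47.N1

open Pool.Agent.T9h98.DC Pool.Agent.T9h98.NK Pool.Agent.T9h44.NK Pool.Agent.T9h46.NK
open Pool.Agent.T9h36.N1

theorem n4 (hF : S_FACES) (hVF : S_VF) (hI : S_INV) (hO : S_IOTA) (hT : S_TR) (hLC : S_LOCC)
    (hC2 : S_C2) (hN2 : S_N2) : S_N4 := by
  intro m N hN hMK j
  induction j with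
  | zero =>
    intro n hn P H hP hH hFew hReg
    exact hN2 n P H (by omega) hP hH (hMK n (by omega) P H hP hH hFew) hReg
  | succ j ih =>
    intro n hn P H hP hH hFew hReg
    obtain ⟨q, rfl⟩ : ∃ q, n = q + 1 := ⟨n - 1, by omega⟩
    have h1 : PT 1 H P := hN2 (q + 1) P H (by omega) hP hH (hMK (q + 1) (by omega) P H hP hH hFew) hReg
    have hdat : ∀ v, Vx P v → ∃ (a : E (q + 1 + 1)) (ι : E (q + 1) →ₗᵢ[ℝ] E (q + 1 + 1)),
        a ≠ 0 ∧ Sup P v a ∧ Ort a ι ∧ (∀ h ∈ H, h v = v → h a = a) := by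
      intro v hv
      obtain ⟨a, ha, hs, hfix⟩ := hI (q + 1 + 1) P v H hP.1 hv (Pool.Agent.T9h44.NK.exists_ne hP v) hH
      obtain ⟨ι, hι, -⟩ := hO (q + 1) a ha
      exact ⟨a, ι, ha, hs, hι, hfix⟩
    have hgood : ∀ (v a : E (q + 1 + 1)) (ι : E (q + 1) →ₗᵢ[ℝ] E (q + 1 + 1)), Vx P v → a ≠ 0 →
        Sup P v a → Ort a ι → (∀ h ∈ H, h v = v → h a = a) →
        IsPolytope (fig v a ι P) ∧ Pres (figH H v ι) (fig v a ι P) ∧
          Few m (figH H v ι) (fig v a ι P) ∧ Good (fig v a ι P) (figH H v ι) := by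
      intro v a ι hv ha hs hι hfix
      have hpoly := (hVF (q + 1) P v a ι hP hv hs ha hι).1
      obtain ⟨t1, -, -, t4, -⟩ := hT (q + 1) P H v a ι hP hH hv hs ha hι hfix
      exact ⟨hpoly, t1, t4 m hFew, hMK q (by omega) _ _ hpoly t1 (t4 m hFew)⟩
    have hne : ∃ v, Vx P v := (hF (q + 1 + 1) P hP.1).2.2.2.2.1 (hP.2.mono interior_subset) |>.2
    have key : ∃ (v a : E (q + 1 + 1)) (ι : E (q + 1) →ₗᵢ[ℝ] E (q + 1 + 1)), Vx P v ∧ a ≠ 0 ∧
        Sup P v a ∧ Ort a ι ∧ (∀ h ∈ H, h v = v → h a = a) ∧ ¬ RegC (fig v a ι P) := by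
      by_contra hcon
      push Not at hcon
      refine hC2 (q + 1) P (by omega) hP hne fun v hv => ?_
      obtain ⟨a, ι, ha, hs, hι, hfix⟩ := hdat v hv
      exact hLC (q + 1) P H v a ι (by omega) hP hH hv
        ⟨hs, ha, hι, hfix, (hgood v a ι hv ha hs hι hfix).2.2.2⟩ (hcon v a ι hv ha hs hι hfix)
    obtain ⟨v, a, ι, hv, ha, hs, hι, hfix, hnc⟩ := key
    obtain ⟨g1, g2, g3, g4⟩ := hgood v a ι hv ha hs hι hfix
    have hreg : RegS (fig v a ι P) ∨ RegO (fig v a ι P) := by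
      rcases g4.1 with h | h | h
      · exact Or.inl h
      · exact Or.inr h
      · exact absurd h hnc
    obtain ⟨-, -, t3, -, -⟩ := hT (q + 1) P H v a ι hP hH hv hs ha hι hfix
    exact t3 (j + 1) (fun w hw => Pool.Agent.T9h44.NK.vtrans h1 v w hv hw)
      (ih q (by omega) _ _ g1 g2 g3 hreg)

end Pool.Agent.T9h47.N1
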